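import Mathlib

/-!
# IL-GLK: from the classes prime to the modulus to all the classes (elementary part)
-/

set_option autoImplicit false

open scoped Classical

namespace Pool.Agent.N946.IL.GLK

open Finset Filter

/-- log log -/
noncomputable def LL (X : ℕ) : ℝ := Real.log (Real.log (X : ℝ))

lemma l_top : Tendsto (fun X : ℕ => Real.log (X : ℝ)) atTop atTop :=
  Real.tendsto_log_atTop.comp tendsto_natCast_atTop_atTop

lemma ll_top : Tendsto LL atTop atTop := Real.tendsto_log_atTop.comp l_top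

lemma div_top (g : ℕ) (hg : 0 < g) : Tendsto (fun X : ℕ => X / g) atTop atTop := by
  refine tendsto_atTop.2 fun b => ?_
  filter_upwards [eventually_ge_atTop (b * g)] with X hX
  exact (Nat.le_div_iff_mul_le hg).2 hX

lemma l_ratio (g : ℕ) (hg : 0 < g) :
    Tendsto (fun X : ℕ => Real.log ((X / g : ℕ) : ℝ) / Real.log (X : ℝ)) atTop (nhds 1) := by
  have h1 : Tendsto (fun X : ℕ => 1 - Real.log (2 * g) / Real.log (X : ℝ)) atTop (nhds 1) := by
    have := (l_top.const_div_atTop (Real.log (2 * g))).const_sub 1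
    rwa [sub_zero] at this
  refine tendsto_of_tendsto_of_tendsto_of_le_of_le' h1 tendsto_const_nhds ?_ ?_
  · filter_upwards [eventually_ge_atTop (2 * g), eventually_ge_atTop 3] with X hX hX3
    have hY : 1 ≤ X / g := (Nat.le_div_iff_mul_le hg).2 (by omega)
    have h2 : X ≤ 2 * g * (X / g) := by
      have h3 := Nat.lt_mul_div_succ X hg
      nlinarith
    have h3 : (X : ℝ) ≤ 2 * g * ((X / g : ℕ) : ℝ) := by exact_mod_cast h2
    have hX0 : (0 : ℝ) < X := by exact_mod_cast (by omega : 0 < X)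
    have hY0 : (0 : ℝ) < ((X / g : ℕ) : ℝ) := by exact_mod_cast hY
    have hg0 : (0 : ℝ) < g := by exact_mod_cast hg
    have h4 : Real.log X ≤ Real.log (2 * g) + Real.log ((X / g : ℕ) : ℝ) := by
      rw [← Real.log_mul (by positivity) hY0.ne']
      exact Real.log_le_log hX0 h3
    have h5 : 0 < Real.log (X : ℝ) := Real.log_pos (by exact_mod_cast (by omega : 1 < X))
    rw [sub_le_iff_le_add, ← add_div, le_div_iff₀ h5]
    linarith
  · filter_upwards [eventually_ge_atTop (2 * g), eventually_ge_atTop 3] with X hX hX3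
    have hY : 1 ≤ X / g := (Nat.le_div_iff_mul_le hg).2 (by omega)
    have h5 : 0 < Real.log (X : ℝ) := Real.log_pos (by exact_mod_cast (by omega : 1 < X))
    rw [div_le_one h5]
    refine Real.log_le_log (by exact_mod_cast hY) ?_
    exact_mod_cast Nat.div_le_self X g

lemma ll_diff (g : ℕ) (hg : 0 < g) : Tendsto (fun X : ℕ => LL X - LL (X / g)) atTop (nhds 0) := by
  have h1 := ((Real.continuousAt_log one_ne_zero).tendsto.comp (l_ratio g hg)).neg
  rw [Real.log_one, neg_zero] at h1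
  refine h1.congr' ?_
  have e1 := l_top.eventually_gt_atTop 0
  have e2 := (l_top.comp (div_top g hg)).eventually_gt_atTop 0
  filter_upwards [e1, e2] with X h2 h3
  have h3' : 0 < Real.log ((X / g : ℕ) : ℝ) := h3
  simp only [Function.comp_apply]
  rw [Real.log_div h3'.ne' h2.ne']
  unfold LL
  ring

lemma tprime (μ V t c : ℝ) (hV : 0 < V) (g : ℕ) (hg : 0 < g) : Tendsto (fun X : ℕ =>
    (μ * LL X + t * √(V * LL X) - c - μ * LL (X / g)) / √(V * LL (X / g))) atTop (nhds t) := by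
  have hY : Tendsto (fun X : ℕ => LL (X / g)) atTop atTop := ll_top.comp (div_top g hg)
  have hS : Tendsto (fun X : ℕ => √(V * LL (X / g))) atTop atTop :=
    Real.tendsto_sqrt_atTop.comp (hY.const_mul_atTop hV)
  have h1 : Tendsto (fun X : ℕ => (μ * (LL X - LL (X / g)) - c) / √(V * LL (X / g))) atTop
      (nhds 0) := (((ll_diff g hg).const_mul μ).sub_const c).div_atTop hS
  have h2 : Tendsto (fun X : ℕ => LL X / LL (X / g)) atTop (nhds 1) := by
    have h3 : Tendsto (fun X : ℕ => (LL X - LL (X / g)) / LL (X / g) + 1) atTop (nhds (0 + 1)) :=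
      ((ll_diff g hg).div_atTop hY).add_const 1
    rw [zero_add] at h3
    refine h3.congr' ?_
    filter_upwards [hY.eventually_gt_atTop 0] with X hX
    field_simp
    ring
  have h3 : Tendsto (fun X : ℕ => t * √(LL X / LL (X / g))) atTop (nhds t) := by
    have := ((Real.continuous_sqrt.tendsto 1).comp h2).const_mul t
    rwa [Real.sqrt_one, mul_one] at this
  have h4 := h1.add h3
  rw [zero_add] at h4
  refine h4.congr' ?_
  filter_upwards [hY.eventually_gt_atTop 0, ll_top.eventually_gt_atTop 0] with X hX hX'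
  have h5 : √(LL X / LL (X / g)) = √(V * LL X) / √(V * LL (X / g)) := by
    rw [← Real.sqrt_div (by positivity)]
    congr 1
    field_simp
  have h6 : 0 < √(V * LL (X / g)) := Real.sqrt_pos.2 (by positivity)
  rw [h5]
  field_simp
  ring

lemma pair {N : ℕ → ℝ} {C : ℕ → ℝ → ℝ} (hN : ∀ Y, 0 ≤ N Y) (hmono : ∀ Y, Monotone (C Y))
    (Φ : ℝ → ℝ) (hΦ : Continuous Φ) (μ V : ℝ) (hV : 0 < V)
    (hlaw : ∀ t, Tendsto (fun Y : ℕ => C Y (μ * LL Y + t * √(V * LL Y)) / N Y) atTop (nhds (Φ t)))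
    (t c : ℝ) (g : ℕ) (hg : 0 < g) :
    Tendsto (fun X : ℕ => C (X / g) (μ * LL X + t * √(V * LL X) - c) / N (X / g)) atTop
      (nhds (Φ t)) := by
  rw [Metric.tendsto_nhds]
  intro ε hε
  obtain ⟨δ, hδ, hd⟩ := Metric.continuousAt_iff.1 (hΦ.continuousAt (x := t)) (ε / 2) (half_pos hε)
  have a1 := hd (x := t - δ / 2) (by
    rw [Real.dist_eq, show t - δ / 2 - t = -(δ / 2) by ring, abs_neg, abs_of_pos (by positivity)]
    linarith)
  have a2 := hd (x := t + δ / 2) (by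
    rw [Real.dist_eq, show t + δ / 2 - t = δ / 2 by ring, abs_of_pos (by positivity)]
    linarith)
  have b1 := Metric.tendsto_nhds.1 ((hlaw (t - δ / 2)).comp (div_top g hg)) (ε / 2) (half_pos hε)
  have b2 := Metric.tendsto_nhds.1 ((hlaw (t + δ / 2)).comp (div_top g hg)) (ε / 2) (half_pos hε)
  have b3 := Metric.tendsto_nhds.1 (tprime μ V t c hV g hg) (δ / 2) (half_pos hδ)
  have b4 := (ll_top.comp (div_top g hg)).eventually_gt_atTop 0
  filter_upwards [b1, b2, b3, b4] with X c1 c2 c3 c4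
  have c4' : 0 < LL (X / g) := c4
  have h6 : 0 < √(V * LL (X / g)) := Real.sqrt_pos.2 (by positivity)
  simp only [Function.comp_apply] at c1 c2
  rw [Real.dist_eq] at c1 c2 c3 a1 a2 ⊢
  rw [abs_lt] at c1 c2 c3 a1 a2 ⊢
  have d1 : μ * LL (X / g) + (t - δ / 2) * √(V * LL (X / g)) ≤
      μ * LL X + t * √(V * LL X) - c := by
    have := c3.1
    rw [lt_sub_iff_add_lt, lt_div_iff₀ h6] at this
    linarith
  have d2 : μ * LL X + t * √(V * LL X) - c ≤
      μ * LL (X / g) + (t + δ / 2) * √(V * LL (X / g)) := by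
    have := c3.2
    rw [sub_lt_iff_lt_add, div_lt_iff₀ h6] at this
    linarith
  have e1 := div_le_div_of_nonneg_right (hmono (X / g) d1) (hN (X / g))
  have e2 := div_le_div_of_nonneg_right (hmono (X / g) d2) (hN (X / g))
  constructor
  · linarith [c1.1, a1.1]
  · linarith [c2.2, a2.2]

lemma mean {ι : Type*} (T : Finset ι) (A N : ι → ℕ → ℝ) (L : ℝ)
    (h0 : ∀ i ∈ T, ∀ X, 0 ≤ A i X ∧ A i X ≤ N i X)
    (h : ∀ i ∈ T, Tendsto (fun X => A i X / N i X) atTop (nhds L))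
    (hpos : ∀ᶠ X in atTop, 0 < ∑ i ∈ T, N i X) :
    Tendsto (fun X => (∑ i ∈ T, A i X) / ∑ i ∈ T, N i X) atTop (nhds L) := by
  rw [Metric.tendsto_nhds]
  intro ε hε
  have h1 : ∀ᶠ X in atTop, ∀ i ∈ T, dist (A i X / N i X) L < ε / 2 :=
    (eventually_all_finset T).2 fun i hi => Metric.tendsto_nhds.1 (h i hi) (ε / 2) (half_pos hε)
  filter_upwards [h1, hpos] with X h2 h3
  rw [Real.dist_eq]
  have h4 : |∑ i ∈ T, A i X - L * ∑ i ∈ T, N i X| ≤ ε / 2 * ∑ i ∈ T, N i X := by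
    rw [mul_sum, ← sum_sub_distrib, mul_sum]
    refine (abs_sum_le_sum_abs _ _).trans (sum_le_sum fun i hi => ?_)
    obtain ⟨k1, k2⟩ := h0 i hi X
    rcases (k1.trans k2).eq_or_lt with h5 | h5
    · have h6 : A i X = 0 := le_antisymm (by rw [h5]; exact k2) k1
      rw [← h5, h6]
      simp
    · have h6 := (h2 i hi).le
      rw [Real.dist_eq] at h6
      have h7 : A i X - L * N i X = (A i X / N i X - L) * N i X := by
        field_simp
      rw [h7, abs_mul, abs_of_pos h5]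
      exact mul_le_mul_of_nonneg_right h6 h5.le
  have h5 : (∑ i ∈ T, A i X) / (∑ i ∈ T, N i X) - L =
      (∑ i ∈ T, A i X - L * ∑ i ∈ T, N i X) / ∑ i ∈ T, N i X := by
    field_simp
  rw [h5, abs_div, abs_of_pos h3, div_lt_iff₀ h3]
  have h6 : ε / 2 * ∑ i ∈ T, N i X < ε * ∑ i ∈ T, N i X :=
    mul_lt_mul_of_pos_right (by linarith) h3
  linarith

/-- the pairs (residue, cofactor) -/
def TT (M : ℕ) (K : Finset ℕ) : Finset (ℕ × ℕ) :=
  (K ×ˢ range M).filter fun rs => Nat.Coprime rs.2 M ∧ (Nat.gcd rs.1 M * rs.2) % M = rs.1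

lemma gcd_mod (n M : ℕ) : Nat.gcd (n % M) M = Nat.gcd n M := by
  rw [← Nat.gcd_rec, Nat.gcd_comm]

lemma cop_div {n M : ℕ} (hn : Squarefree n) : Nat.Coprime (n / Nat.gcd n M) M := by
  have hn0 : n ≠ 0 := hn.ne_zero
  have hg : 0 < Nat.gcd n M := Nat.gcd_pos_of_pos_left _ (Nat.pos_of_ne_zero hn0)
  have hd : Nat.gcd n M ∣ n := Nat.gcd_dvd_left _ _
  have e : Nat.gcd n M * (n / Nat.gcd n M) = n := Nat.mul_div_cancel' hd
  refine Nat.Coprime.symm (Nat.Coprime.symm ?_)
  by_contra hc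
  obtain ⟨p, hp, h1, h2⟩ := Nat.Prime.not_coprime_iff_dvd.1 hc
  have h3 : p ∣ Nat.gcd n M := Nat.dvd_gcd (h1.trans (Nat.div_dvd_of_dvd hd)) h2
  have h4 : p * p ∣ n := by
    rw [← e]
    exact mul_dvd_mul h3 h1
  exact hp.one_lt.ne' (Nat.isUnit_iff.1 (hn p h4))

lemma decomp {M : ℕ} {K : Finset ℕ} (hM : 0 < M)
    (hK : ∀ r ∈ K, r < M ∧ ∃ n : ℕ, Squarefree n ∧ n % M = r) (X : ℕ) (P : ℕ → Prop) :
    ((Icc 1 X).filter fun n => (Squarefree n ∧ n % M ∈ K) ∧ P n).card =
      ∑ rs ∈ TT M K, ((Icc 1 (X / Nat.gcd rs.1 M)).filter fun m =>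
        (Squarefree m ∧ m % M ∈ ({rs.2} : Finset ℕ)) ∧ P (Nat.gcd rs.1 M * m)).card := by
  rw [card_eq_sum_card_fiberwise (f := fun n => (n % M, (n / Nat.gcd n M) % M)) (t := TT M K)]
  · refine sum_congr rfl fun rs hrs => ?_
    obtain ⟨r, s⟩ := rs
    unfold TT at hrs
    rw [mem_filter, mem_product, mem_range] at hrs
    obtain ⟨⟨hr, hs⟩, hcop, hmod⟩ := hrs
    simp only at hr hs hcop hmod ⊢
    obtain ⟨hrM, n₀, hn₀, hn₀r⟩ := hK r hr
    have hgs : Squarefree (Nat.gcd r M) := by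
      rw [← hn₀r, gcd_mod]
      exact hn₀.squarefree_of_dvd (Nat.gcd_dvd_left _ _)
    have hg0 : 0 < Nat.gcd r M := Nat.gcd_pos_of_pos_right _ hM
    refine card_nbij' (fun n => n / Nat.gcd r M) (fun m => Nat.gcd r M * m) ?_ ?_ ?_ ?_
    · intro n hn
      rw [mem_coe, mem_filter, mem_filter, mem_Icc, Prod.mk.injEq] at hn
      obtain ⟨⟨⟨h1, h2⟩, ⟨h3, h4⟩, h5⟩, h6, h7⟩ := hn
      have hgr : Nat.gcd n M = Nat.gcd r M := by rw [← h6, gcd_mod]
      have hd : Nat.gcd r M ∣ n := by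
        rw [← hgr]
        exact Nat.gcd_dvd_left _ _
      have e : Nat.gcd r M * (n / Nat.gcd r M) = n := Nat.mul_div_cancel' hd
      rw [mem_coe, mem_filter, mem_Icc, mem_singleton]
      refine ⟨⟨Nat.div_pos (Nat.le_of_dvd (by omega) hd) hg0, Nat.div_le_div_right h2⟩,
        ⟨h3.squarefree_of_dvd (Nat.div_dvd_of_dvd hd), ?_⟩, ?_⟩
      · rw [← hgr]
        exact h7
      · rw [e]
        exact h5
    · intro m hm
      rw [mem_coe, mem_filter, mem_Icc, mem_singleton] at hm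
      obtain ⟨⟨h1, h2⟩, ⟨h3, h4⟩, h5⟩ := hm
      have hmM : Nat.Coprime m M := by
        rw [Nat.Coprime, ← gcd_mod, h4]
        exact hcop
      have hgm : Nat.Coprime (Nat.gcd r M) m :=
        (hmM.coprime_dvd_right (Nat.gcd_dvd_right r M)).symm
      have hr' : (Nat.gcd r M * m) % M = r := by
        rw [← Nat.mul_mod_mod, h4, hmod]
      have hgr : Nat.gcd (Nat.gcd r M * m) M = Nat.gcd r M := by
        rw [← gcd_mod, hr']
      rw [mem_coe, mem_filter, mem_filter, mem_Icc, Prod.mk.injEq]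
      refine ⟨⟨⟨Nat.mul_pos hg0 (by omega), ?_⟩, ⟨?_, ?_⟩, h5⟩, hr', ?_⟩
      · exact (Nat.mul_le_mul_left _ h2).trans (Nat.mul_div_le X _)
      · exact (Nat.squarefree_mul hgm).2 ⟨hgs, h3⟩
      · rw [hr']
        exact hr
      · rw [hgr, Nat.mul_div_cancel_left _ hg0]
        exact h4
    · intro n hn
      rw [mem_coe, mem_filter, mem_filter, mem_Icc, Prod.mk.injEq] at hn
      obtain ⟨⟨⟨h1, h2⟩, ⟨h3, h4⟩, h5⟩, h6, h7⟩ := hn
      have hgr : Nat.gcd n M = Nat.gcd r M := by rw [← h6, gcd_mod]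
      have hd : Nat.gcd r M ∣ n := by
        rw [← hgr]
        exact Nat.gcd_dvd_left _ _
      exact Nat.mul_div_cancel' hd
    · intro m _
      exact Nat.mul_div_cancel_left _ hg0
  · intro n hn
    rw [mem_coe, mem_filter, mem_Icc] at hn
    obtain ⟨⟨h1, h2⟩, ⟨h3, h4⟩, h5⟩ := hn
    rw [mem_coe]
    unfold TT
    rw [mem_filter, mem_product, mem_range]
    have hd : Nat.gcd n M ∣ n := Nat.gcd_dvd_left _ _
    refine ⟨⟨h4, Nat.mod_lt _ hM⟩, ?_, ?_⟩
    · have := cop_div (M := M) h3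
      simp only
      rw [Nat.Coprime, gcd_mod]
      exact this
    · simp only
      rw [gcd_mod, Nat.mul_mod, Nat.mod_mod, ← Nat.mul_mod, Nat.mul_div_cancel' hd]

lemma gauss_cont : Continuous fun x : ℝ =>
    (ProbabilityTheory.gaussianReal 0 1).real (Set.Iic x) := by
  have : MeasureTheory.NullSingletonClass (ProbabilityTheory.gaussianReal 0 1) :=
    ProbabilityTheory.nullSingletonClass_gaussianReal one_ne_zero
  have h : Continuous (ProbabilityTheory.cdf (ProbabilityTheory.gaussianReal 0 1)) := by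
    refine continuous_iff_continuousAt.2 fun a => ?_
    rw [(ProbabilityTheory.monotone_cdf _).continuousAt_iff_leftLim_eq_rightLim,
      StieltjesFunction.rightLim_eq]
    have h1 : (ProbabilityTheory.cdf (ProbabilityTheory.gaussianReal 0 1)).measure {a} = 0 := by
      rw [ProbabilityTheory.measure_cdf]; simp
    rw [StieltjesFunction.measure_singleton] at h1
    have h2 : Function.leftLim (ProbabilityTheory.cdf (ProbabilityTheory.gaussianReal 0 1)) a ≤
        ProbabilityTheory.cdf (ProbabilityTheory.gaussianReal 0 1) a :=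
      (ProbabilityTheory.monotone_cdf _).leftLim_le le_rfl
    have h3 := ENNReal.ofReal_eq_zero.1 h1
    linarith
  refine h.congr fun x => ?_
  rw [ProbabilityTheory.cdf_eq_real]

/-- the law, with constants `μ`, `V` -/
theorem core {M : ℕ} {K : Finset ℕ} (hM : 0 < M) (h : ℕ → ℝ) (μ V : ℝ) (hV : 0 < V)
    (hlaw : ∀ s < M, Nat.Coprime s M → ∀ t : ℝ, Tendsto (fun X : ℕ =>
      (((Icc 1 X).filter fun n => (Squarefree n ∧ n % M ∈ ({s} : Finset ℕ)) ∧
        ∑ p ∈ n.primeFactors, h p ≤ μ * LL X + t * √(V * LL X)).card : ℝ) /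
      (((Icc 1 X).filter fun n => Squarefree n ∧ n % M ∈ ({s} : Finset ℕ)).card : ℝ)) atTop
      (nhds ((ProbabilityTheory.gaussianReal 0 1).real (Set.Iic t))))
    (hne : K.Nonempty) (hK : ∀ r ∈ K, r < M ∧ ∃ n : ℕ, Squarefree n ∧ n % M = r) (t : ℝ) :
    Tendsto (fun X : ℕ =>
      (((Icc 1 X).filter fun n => (Squarefree n ∧ n % M ∈ K) ∧
        ∑ p ∈ n.primeFactors, h p ≤ μ * LL X + t * √(V * LL X)).card : ℝ) /
      (((Icc 1 X).filter fun n => Squarefree n ∧ n % M ∈ K).card : ℝ)) atTop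
      (nhds ((ProbabilityTheory.gaussianReal 0 1).real (Set.Iic t))) := by
  have hden : ∀ X : ℕ, (((Icc 1 X).filter fun n => Squarefree n ∧ n % M ∈ K).card : ℝ) =
      ∑ rs ∈ TT M K, (((Icc 1 (X / Nat.gcd rs.1 M)).filter fun m =>
        Squarefree m ∧ m % M ∈ ({rs.2} : Finset ℕ)).card : ℝ) := by
    intro X
    have := decomp hM hK X (fun _ => True)
    simp only [and_true] at this
    rw [this]
    push_cast
    rfl
  have hnum : ∀ X : ℕ, (((Icc 1 X).filter fun n => (Squarefree n ∧ n % M ∈ K) ∧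
        ∑ p ∈ n.primeFactors, h p ≤ μ * LL X + t * √(V * LL X)).card : ℝ) =
      ∑ rs ∈ TT M K, (((Icc 1 (X / Nat.gcd rs.1 M)).filter fun m =>
        (Squarefree m ∧ m % M ∈ ({rs.2} : Finset ℕ)) ∧ ∑ p ∈ m.primeFactors, h p ≤
          μ * LL X + t * √(V * LL X) - ∑ p ∈ (Nat.gcd rs.1 M).primeFactors, h p).card : ℝ) := by
    intro X
    have := decomp hM hK X (fun n => ∑ p ∈ n.primeFactors, h p ≤ μ * LL X + t * √(V * LL X))
    rw [this]
    push_cast
    refine sum_congr rfl fun rs hrs => ?_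
    unfold TT at hrs
    rw [mem_filter, mem_product, mem_range] at hrs
    obtain ⟨⟨hr, hs⟩, hcop, hmod⟩ := hrs
    congr 2
    refine filter_congr fun m hm => and_congr_right fun hm' => ?_
    have hmM : Nat.Coprime m M := by
      rw [Nat.Coprime, ← gcd_mod, mem_singleton.1 hm'.2]
      exact hcop
    have hgm : Nat.Coprime (Nat.gcd rs.1 M) m :=
      (hmM.coprime_dvd_right (Nat.gcd_dvd_right _ M)).symm
    rw [hgm.primeFactors_mul, sum_union hgm.disjoint_primeFactors, le_sub_iff_add_le, add_comm]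
  simp_rw [hden, hnum]
  refine mean (TT M K) (fun rs X => (((Icc 1 (X / Nat.gcd rs.1 M)).filter fun m =>
        (Squarefree m ∧ m % M ∈ ({rs.2} : Finset ℕ)) ∧ ∑ p ∈ m.primeFactors, h p ≤
          μ * LL X + t * √(V * LL X) - ∑ p ∈ (Nat.gcd rs.1 M).primeFactors, h p).card : ℝ))
    (fun rs X => (((Icc 1 (X / Nat.gcd rs.1 M)).filter fun m =>
        Squarefree m ∧ m % M ∈ ({rs.2} : Finset ℕ)).card : ℝ)) _ ?_ ?_ ?_
  · intro rs _ X
    refine ⟨Nat.cast_nonneg _, Nat.cast_le.2 (card_le_card ?_)⟩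
    intro m hm
    rw [mem_filter] at hm ⊢
    exact ⟨hm.1, hm.2.1⟩
  · intro rs hrs
    unfold TT at hrs
    rw [mem_filter, mem_product, mem_range] at hrs
    obtain ⟨⟨hr, hs⟩, hcop, hmod⟩ := hrs
    exact pair (N := fun Y => (((Icc 1 Y).filter fun m =>
        Squarefree m ∧ m % M ∈ ({rs.2} : Finset ℕ)).card : ℝ))
      (C := fun Y θ => (((Icc 1 Y).filter fun m =>
        (Squarefree m ∧ m % M ∈ ({rs.2} : Finset ℕ)) ∧ ∑ p ∈ m.primeFactors, h p ≤ θ).card : ℝ))
      (fun Y => Nat.cast_nonneg _) (fun Y a b hab => Nat.cast_le.2 (card_le_card fun m hm => by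
        rw [mem_filter] at hm ⊢
        exact ⟨hm.1, hm.2.1, hm.2.2.trans hab⟩))
      (fun t => (ProbabilityTheory.gaussianReal 0 1).real (Set.Iic t)) gauss_cont μ V hV
      (hlaw rs.2 hs hcop) t _ (Nat.gcd rs.1 M) (Nat.gcd_pos_of_pos_right _ hM)
  · obtain ⟨r, hr⟩ := hne
    obtain ⟨_, n₀, hn₀, hn₀r⟩ := hK r hr
    filter_upwards [eventually_ge_atTop n₀] with X hX
    rw [← hden X]
    refine Nat.cast_pos.2 (card_pos.2 ⟨n₀, ?_⟩)
    rw [mem_filter, mem_Icc]
    exact ⟨⟨Nat.pos_of_ne_zero hn₀.ne_zero, hX⟩, hn₀, by rw [hn₀r]; exact hr⟩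

end Pool.Agent.N946.IL.GLK
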