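import Mathlib
import Pool.Agent.N946.IL.GlkCore
import Pool.Agent.N818.IL.Stm

/-!
# IL-GLK: from the classes prime to the modulus to all the classes
-/

set_option autoImplicit false

open scoped Classical

namespace Pool.Agent.N946.IL

theorem t_GLK : Pool.Agent.N818.IL.S_GLK := by
  intro M K _ hM hlaw hne hK h t hh hV
  exact GLK.core hM h (Pool.Agent.N818.IL.mn M h) (Pool.Agent.N818.IL.mn M fun a => h a ^ 2) hV
    (fun s hs hcop t' => hlaw s hs hcop h t' hh hV) hne
    (fun r hr => ⟨(hK r hr).1, (hK r hr).2.imp fun n hn => ⟨hn.1, hn.2.1⟩⟩) t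

end Pool.Agent.N946.IL
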